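import Pool.Agent.H458.AU.Final
import Pool.Agent.H458.RN.Rel
import Pool.Graph.R_pool_sql_team_seeded_63374d34.N874.TF.All

/-!
# Almost all elliptic curves over a number field: the parity conjecture for a bounded quadratic twist

Let `F` be ANY number field, and `N(X)` the number of the minimal integral equations
`E : y ^ 2 = x ^ 3 + A x + B` of elliptic curves over `F` of height at most `X`; for `d ∈ 𝓞 F`, `d ≠ 0`, the curve
`y ^ 2 = x ^ 3 + A d ^ 2 x + B d ^ 3` is the quadratic twist `E ^ d`.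

For a natural number `R` and `E` let `C(E, R)` be the class of all the Galois extensions `M / F` of 2-power degree in
which the primes dividing `R` split completely, which are unramified at all the primes of `F` modulo which
`x ^ 3 + A x + B` has a zero, and in which the real places of `F` at which `4 A ^ 3 + 27 B ^ 2` is negative have a
real place above them.

**Theorem.** Let `W ≥ 1`, let `𝒮` be a finite set of nonzero integers of `F` and `ε > 0`. There are a FINITE set `𝒟`
of squarefree natural numbers `D ≡ 1 mod 8 W`, with `1 ∈ 𝒟`, and a multiple `R` of `2 W` and of all `D ∈ 𝒟`, such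
that for all large `X` ALL the curves `E` of height at most `X`, with the exception of at most `ε N(X)`, have for
every `d ∈ 𝒮` a `D ∈ 𝒟` with the following properties for ALL `M ∈ C(E ^ d, R)` (`M = F` is one of them).

(1) The 2-Selmer group of `E ^ (d D)` over `M` is zero, its Tate-Shafarevich group over `M` has no element of order two,
and the group of the points over `M` is finite of odd order; the rank is `0`.

(2) If `Gal(M / F)` is not cyclic, then the global root number of `E ^ (d D)` over `M` is `1`, so that the parity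
conjecture `(-1) ^ rk = w` holds for `E ^ (d D)` over `M`.

(2) is proved for all functions `w` on the primes of `M` with three properties of the local root numbers: the
values are signs; `w v = 1` if `v` does not divide `2 (4 A ^ 3 + 27 B ^ 2)`, `(A, B)` the coefficients of the
twist, (good reduction); and `w` is invariant under `Gal(M / F)` (as the curve is defined over `F`). At
the infinite places the local root number is `-1`. The three properties determine the product.

So the parity conjecture holds over all `M` with a Galois group which is not cyclic in an infinite class for a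
quadratic twist, by one of finitely many natural numbers which do not depend on the curve, of EVERY elliptic
curve over `F`, up to a proportion `ε`. What was known in the library and in this run: positive proportions
(`MP_02f36d_nt.EveryBaseFieldTwoExtensions`, for one given `M`), and (1) (`MP_7cad78_nt.FiniteSetsOfTwists`, whose proof is
used here). The root numbers and the parity conjecture for almost all curves are new.

Proof of (2). The product over the primes is `(-1) ^ n`, where `n` is the number of the primes `v` with `w v = -1`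
which are stable under the 2-group `Gal(M / F)`. Such a `v` is not over a ramified prime, where the twist
has good reduction: the cubic has no zero modulo a ramified prime, so that its discriminant is not zero modulo this
prime, which does not divide `D`. So the Galois group is the decomposition group of an unramified prime, and
cyclic. The number of the infinite places of `M` is even.
-/

set_option autoImplicit false
set_option linter.all false

open Polynomial NumberField IsDedekindDomain Filter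
open scoped Classical

namespace Pool.Agent.Results.MP_02f36d_nt.AlmostAllCurves

open Pool.Agent.N874.PP (sW)
open Pool.Agent.TH115.GD (Pt)
open Pool.Agent.N874.QM (SelC ShaC)

section defs

variable {F : Type} [Field F] [NumberField F]

variable (F) in
/-- The pairs `(A, B)` of height at most `X` such that `y ^ 2 = x ^ 3 + A x + B` is a minimal equation of an elliptic
curve. -/
def Curves (X : ℝ) : Set (𝓞 F × 𝓞 F) :=
  {p | 4 * p.1 ^ 3 + 27 * p.2 ^ 2 ≠ 0 ∧
    (∀ 𝔭 : Ideal (𝓞 F), 𝔭.IsPrime → 𝔭 ≠ ⊥ → ¬ (p.1 ∈ 𝔭 ^ 4 ∧ p.2 ∈ 𝔭 ^ 6)) ∧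
    ∀ σ : F →+* ℂ, 4 * ‖σ (p.1 : F)‖ ^ 3 ≤ X ∧ 27 * ‖σ (p.2 : F)‖ ^ 2 ≤ X}

/-- The quadratic twist by `d`. -/
def twist (p : 𝓞 F × 𝓞 F) (d : 𝓞 F) : 𝓞 F × 𝓞 F := (p.1 * d ^ 2, p.2 * d ^ 3)

/-- The curve `y ^ 2 = x ^ 3 + A x + B` over the extension `M` of `F`, `p = (A, B)`. -/
noncomputable def curve (M : Type) [Field M] [Algebra F M] (p : 𝓞 F × 𝓞 F) : WeierstrassCurve M :=
  sW (algebraMap F M (p.1 : F)) (algebraMap F M (p.2 : F))

/-- `M / F` is unramified at `v`. -/
def Unramified (v : HeightOneSpectrum (𝓞 F)) (M : Type) [Field M] [NumberField M] [Algebra F M] : Prop :=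
  ∀ w : HeightOneSpectrum (𝓞 M), v.asIdeal.map (algebraMap (𝓞 F) (𝓞 M)) ≤ w.asIdeal →
    ¬ v.asIdeal.map (algebraMap (𝓞 F) (𝓞 M)) ≤ w.asIdeal ^ 2

/-- `v` splits completely in `M`: it is unramified and all integers of `M` are congruent to integers of
`F` modulo every prime over `v`. -/
def SplitsCompletely (v : HeightOneSpectrum (𝓞 F)) (M : Type) [Field M] [NumberField M]
    [Algebra F M] : Prop :=
  Unramified v M ∧
  ∀ w : HeightOneSpectrum (𝓞 M), v.asIdeal.map (algebraMap (𝓞 F) (𝓞 M)) ≤ w.asIdeal →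
    ∀ y : 𝓞 M, ∃ c : 𝓞 F, y - algebraMap (𝓞 F) (𝓞 M) c ∈ w.asIdeal

/-- The extensions `M / F` which belong to the integer `R` and the curve `p = (A, B)`. -/
structure InClass (R : ℕ) (p : 𝓞 F × 𝓞 F) (M : Type) [Field M] [NumberField M] [Algebra F M] : Prop where
  galois : IsGalois F M
  degree : ∃ n : ℕ, Module.finrank F M = 2 ^ n
  split : ∀ v : HeightOneSpectrum (𝓞 F), (R : 𝓞 F) ∈ v.asIdeal → SplitsCompletely v M
  unramified : ∀ v : HeightOneSpectrum (𝓞 F), (∃ t : 𝓞 F, t ^ 3 + p.1 * t + p.2 ∈ v.asIdeal) →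
    Unramified v M
  real : ∀ σ : F →+* ℝ, 0 < σ ((4 * p.1 ^ 3 + 27 * p.2 ^ 2 : 𝓞 F) : F) ∨
    ∃ ρ : M →+* ℝ, ρ.comp (algebraMap F M) = σ

/-- The curve `p` has trivial 2-Selmer group, no element of order two in the Tate-Shafarevich group, and
finitely many points over `M`, an odd number. -/
structure Trivial (M : Type) [Field M] [NumberField M] [Algebra F M] (p : 𝓞 F × 𝓞 F) : Prop where
  selmer : SelC (curve M p)
  sha : ShaC (curve M p)
  finite : Finite (Pt (curve M p) M)
  odd : Odd (Nat.card (Pt (curve M p) M))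

/-- The properties of the local root numbers at the primes `v` of `M` of the curve `p = (A, B)` over `M` which we
use: they are signs, they are `1` if `v` does not divide `2` and `4 A ^ 3 + 27 B ^ 2`, and they are the same for
primes which are conjugate over `F`. -/
structure LocalRootNumbers (p : 𝓞 F × 𝓞 F) (M : Type) [Field M] [NumberField M] [Algebra F M]
    (w : HeightOneSpectrum (𝓞 M) → ℤ) : Prop where
  sign : ∀ v, w v = 1 ∨ w v = -1
  good : ∀ v : HeightOneSpectrum (𝓞 M), (2 : 𝓞 M) ∉ v.asIdeal →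
    algebraMap (𝓞 F) (𝓞 M) (4 * p.1 ^ 3 + 27 * p.2 ^ 2) ∉ v.asIdeal → w v = 1
  conj : ∀ (σ : M ≃ₐ[F] M) (v v' : HeightOneSpectrum (𝓞 M)),
    (∀ x : M, v'.valuation M x = v.valuation M (σ x)) → w v' = w v

/-- The global root number of an elliptic curve: the product of the local root numbers at the primes and
of `-1` for every infinite place. -/
noncomputable def rootNumber (M : Type) [Field M] [NumberField M]
    (w : HeightOneSpectrum (𝓞 M) → ℤ) : ℤ :=
  (-1) ^ Nat.card (InfinitePlace M) * ∏ᶠ v, w v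

/-- The parity conjecture for the curve `p` over `M`, and the finiteness of the product. -/
def Parity (M : Type) [Field M] [NumberField M] [Algebra F M] (p : 𝓞 F × 𝓞 F) : Prop :=
  ∀ w : HeightOneSpectrum (𝓞 M) → ℤ, LocalRootNumbers p M w →
    {v | w v ≠ 1}.Finite ∧ (-1) ^ Module.finrank ℤ (Pt (curve M p) M) = rootNumber M w

/-- The properties over all the fields in the class of the curve `p₀` of the curve `p`. -/
def Good (R : ℕ) (p₀ p : 𝓞 F × 𝓞 F) : Prop :=
  ∀ (M : Type) [Field M] [NumberField M] [Algebra F M], InClass R p₀ M →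
    Trivial M p ∧ (¬ IsCyclic (M ≃ₐ[F] M) → Parity M p)

end defs

section pf

open Pool.Agent.H459.UF (Unr Deg1 GoodM)
open Pool.Agent.H458.AU (ClsM Tw twp)
open Pool.Agent.H458.RN

variable {F : Type} [Field F] [NumberField F]

theorem unr_of {M : Type} [Field M] [NumberField M] [Algebra F M] {v : HeightOneSpectrum (𝓞 F)}
    (h : Unramified v M) : Unr F M v := fun P hP =>
  h P (hP.trans (Ideal.pow_le_self two_ne_zero)) hP

theorem of_unr {M : Type} [Field M] [NumberField M] [Algebra F M] {v : HeightOneSpectrum (𝓞 F)}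
    (h : Unr F M v) : Unramified v M := fun P _ hP => h P hP

/-- A cubic without zeros over a finite field has discriminant different from zero. -/
theorem zero_of_disc {k : Type} [Field k] [Finite k] {a b : k} (h : 4 * a ^ 3 + 27 * b ^ 2 = 0) :
    ∃ t : k, t ^ 3 + a * t + b = 0 := by
  by_cases ha : a = 0
  · subst ha
    by_cases h3 : (3 : k) = 0
    · haveI : CharP k 3 := by
        obtain ⟨p, hp⟩ := CharP.exists k
        have h4 : p ∣ 3 := (CharP.cast_eq_zero_iff k p 3).1 (by exact_mod_cast h3)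
        rcases (Nat.dvd_prime Nat.prime_three).1 h4 with h5 | h5
        · subst h5
          exact absurd rfl (CharP.char_ne_one k 1)
        · subst h5
          exact hp
      haveI : Fact (Nat.Prime 3) := ⟨Nat.prime_three⟩
      obtain ⟨t, ht⟩ := (Finite.injective_iff_surjective.1 (frobenius_inj k 3)) (-b)
      refine ⟨t, ?_⟩
      rw [frobenius_def] at ht
      rw [ht]
      ring
    · have hb : b = 0 := by
        have h4 : (27 : k) ≠ 0 := by
          have : (27 : k) = 3 ^ 3 := by norm_num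
          rw [this]
          exact pow_ne_zero _ h3
        have h5 : (27 : k) * b ^ 2 = 0 := by linear_combination h
        rcases mul_eq_zero.1 h5 with h6 | h6
        · exact absurd h6 h4
        · exact pow_eq_zero_iff (two_ne_zero) |>.1 h6
      exact ⟨0, by rw [hb]; ring⟩
  · refine ⟨3 * b / a, ?_⟩
    field_simp
    linear_combination b * h

theorem parity_of {R : ℕ} (h2R : 2 ∣ R) {p : 𝓞 F × 𝓞 F} {D : ℕ} (hDR : D ∣ R) (hD0 : D ≠ 0)
    (hdis : 4 * p.1 ^ 3 + 27 * p.2 ^ 2 ≠ 0)
    (M : Type) [Field M] [NumberField M] [Algebra F M] (hM : InClass R p M)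
    (hT : Trivial M (twist p (D : 𝓞 F)))
    (hnc : ¬ IsCyclic (M ≃ₐ[F] M)) : Parity M (twist p (D : 𝓞 F)) := by
  intro w hw
  haveI := hM.galois
  obtain ⟨n, hn⟩ := hM.degree
  haveI : FiniteDimensional F M := Module.finite_of_finrank_pos (by rw [hn]; positivity)
  have hcardG : Nat.card (M ≃ₐ[F] M) = 2 ^ n := by
    rw [IsGalois.card_aut_eq_finrank, hn]
  have hn2 : 2 ≤ n := by
    by_contra hlt
    apply hnc
    haveI : Fact (Nat.Prime 2) := ⟨Nat.prime_two⟩
    obtain rfl | rfl : n = 0 ∨ n = 1 := by omega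
    · rw [pow_zero, Nat.card_eq_one_iff_unique] at hcardG
      haveI := hcardG.1
      exact isCyclic_of_subsingleton
    · rw [pow_one] at hcardG
      exact isCyclic_of_prime_card hcardG
  have hdd : 4 * (twist p (D : 𝓞 F)).1 ^ 3 + 27 * (twist p (D : 𝓞 F)).2 ^ 2 =
      (D : 𝓞 F) ^ 6 * (4 * p.1 ^ 3 + 27 * p.2 ^ 2) := by
    unfold twist
    ring
  have hd' : algebraMap (𝓞 F) (𝓞 M) (4 * (twist p (D : 𝓞 F)).1 ^ 3 +
      27 * (twist p (D : 𝓞 F)).2 ^ 2) ≠ 0 := by
    intro h
    rw [hdd] at h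
    have h1 := NumberField.RingOfIntegers.algebraMap.injective F M (h.trans (map_zero _).symm)
    exact mul_ne_zero (pow_ne_zero 6 (Nat.cast_ne_zero.2 hD0)) hdis h1
  have hfin : {v | w v ≠ 1}.Finite := by
    have h1 : {v : HeightOneSpectrum (𝓞 M) | 2 * algebraMap (𝓞 F) (𝓞 M)
        (4 * (twist p (D : 𝓞 F)).1 ^ 3 + 27 * (twist p (D : 𝓞 F)).2 ^ 2) ∈ v.asIdeal}.Finite := by
      have h2 : Ideal.span {2 * algebraMap (𝓞 F) (𝓞 M)
          (4 * (twist p (D : 𝓞 F)).1 ^ 3 + 27 * (twist p (D : 𝓞 F)).2 ^ 2)} ≠ ⊥ := by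
        rw [Ne, Ideal.span_singleton_eq_bot]
        exact mul_ne_zero two_ne_zero hd'
      refine (Ideal.finite_factors h2).subset ?_
      intro v hv
      rw [Set.mem_setOf_eq, Ideal.dvd_span_singleton]
      exact hv
    refine h1.subset ?_
    intro v hv
    by_contra hcon
    apply hv
    have h3 : ¬ ((2 : 𝓞 M) * algebraMap (𝓞 F) (𝓞 M)
        (4 * (twist p (D : 𝓞 F)).1 ^ 3 + 27 * (twist p (D : 𝓞 F)).2 ^ 2) ∈ v.asIdeal) := hcon
    rw [v.isPrime.mul_mem_iff_mem_or_mem, not_or] at h3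
    exact hw.good v h3.1 h3.2
  refine ⟨hfin, ?_⟩
  have hprod := prod_eq F hn w hw.sign hfin hw.conj
  have hempty : {v | w v = -1 ∧ Fixed F v} = ∅ := by
    rw [Set.eq_empty_iff_forall_notMem]
    rintro v ⟨hv1, hv2⟩
    obtain ⟨u, hu⟩ := Pool.Agent.N874.TF.exists_bel F v
    haveI hl : v.asIdeal.LiesOver u.asIdeal := ⟨by
      ext y
      rw [Ideal.mem_comap]
      exact hu y⟩
    have hle : u.asIdeal.map (algebraMap (𝓞 F) (𝓞 M)) ≤ v.asIdeal := by
      rw [Ideal.map_le_iff_le_comap]
      intro y hy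
      exact (hu y).1 hy
    -- an unramified prime
    have hunr : ∀ h : Unramified u M, False := by
      intro h
      apply hnc
      refine cyclic_of_fixed (u := u) (v := v) ?_ hv2
      exact Ideal.ramificationIdx'_spec (by rw [pow_one]; exact hle) (h v hle)
    by_cases hR : (R : 𝓞 F) ∈ u.asIdeal
    · exact hunr (hM.split u hR).1
    have hD : (D : 𝓞 F) ∉ u.asIdeal := by
      intro h3
      apply hR
      obtain ⟨m, hm'⟩ := hDR
      rw [hm', Nat.cast_mul]
      exact Ideal.mul_mem_right _ _ h3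
    have h3 : (2 : 𝓞 M) ∉ v.asIdeal := by
      intro h4
      apply hR
      obtain ⟨m, hm'⟩ := h2R
      rw [hm', Nat.cast_mul]
      refine Ideal.mul_mem_right _ _ ?_
      rw [hu, Nat.cast_ofNat, map_ofNat]
      exact h4
    have hnz : ¬ ∃ t : 𝓞 F, t ^ 3 + p.1 * t + p.2 ∈ u.asIdeal := fun h => hunr (hM.unramified u h)
    have hdu : 4 * p.1 ^ 3 + 27 * p.2 ^ 2 ∉ u.asIdeal := by
      intro h4
      apply hnz
      haveI : u.asIdeal.IsMaximal := u.isMaximal
      letI : Field (𝓞 F ⧸ u.asIdeal) := Ideal.Quotient.field u.asIdeal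
      haveI : Finite (𝓞 F ⧸ u.asIdeal) := inferInstance
      obtain ⟨t, ht⟩ := zero_of_disc (k := 𝓞 F ⧸ u.asIdeal) (a := Ideal.Quotient.mk u.asIdeal p.1)
        (b := Ideal.Quotient.mk u.asIdeal p.2) (by
          have h5 := Ideal.Quotient.eq_zero_iff_mem.2 h4
          simpa only [map_add, map_mul, map_pow, map_ofNat] using h5)
      obtain ⟨t, rfl⟩ := Ideal.Quotient.mk_surjective t
      refine ⟨t, Ideal.Quotient.eq_zero_iff_mem.1 ?_⟩
      simpa only [map_add, map_mul, map_pow] using ht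
    have h5 : algebraMap (𝓞 F) (𝓞 M) (4 * (twist p (D : 𝓞 F)).1 ^ 3 +
        27 * (twist p (D : 𝓞 F)).2 ^ 2) ∉ v.asIdeal := by
      intro h6
      rw [← hu, hdd] at h6
      rcases u.isPrime.mem_or_mem h6 with h7 | h7
      · exact hD (u.isPrime.mem_of_pow_mem _ h7)
      · exact hdu h7
    rw [hw.good v h3 h5] at hv1
    norm_num at hv1
  have hr : Module.finrank ℤ (Pt (curve M (twist p (D : 𝓞 F))) M) = 0 := by
    haveI := hT.finite
    refine Module.finrank_eq_zero_of_rank_eq_zero ?_
    rw [rank_eq_zero_iff]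
    intro x
    obtain ⟨m, hm, hx⟩ := (isOfFinAddOrder_of_finite x).exists_nsmul_eq_zero
    refine ⟨(m : ℤ), by exact_mod_cast hm.ne', ?_⟩
    rw [natCast_zsmul]
    exact hx
  rw [hr, pow_zero, rootNumber, hprod, hempty, Set.ncard_empty, pow_zero, mul_one]
  exact ((even_infinite (F := F) hn hn2).neg_one_pow).symm

theorem good_of {R : ℕ} {𝒟 : Finset ℕ} (h2R : 2 ∣ R) (hD' : ∀ D ∈ 𝒟, Squarefree D ∧ D ∣ R)
    {p : 𝓞 F × 𝓞 F} (hdis : 4 * p.1 ^ 3 + 27 * p.2 ^ 2 ≠ 0) {d : 𝓞 F} (hd : d ≠ 0)
    (h : Tw R 𝒟 (twp p d)) :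
    ∃ D ∈ 𝒟, Good R (twist p d) (twist (twist p d) (D : 𝓞 F)) := by
  obtain ⟨D, hD, h⟩ := h
  refine ⟨D, hD, fun M _ _ _ hM => ?_⟩
  haveI := hM.galois
  obtain ⟨n, hn⟩ := hM.degree
  obtain ⟨h1, h2, h3, h4⟩ := h M n hn ⟨fun v hv => ⟨unr_of (hM.split v hv).1, (hM.split v hv).2⟩,
    fun v hv => unr_of (hM.unramified v hv), hM.real⟩
  have hT : Trivial M (twist (twist p d) (D : 𝓞 F)) := ⟨h1, h2, h3, h4⟩
  have hdis' : 4 * (twist p d).1 ^ 3 + 27 * (twist p d).2 ^ 2 ≠ 0 := by
    have e : 4 * (twist p d).1 ^ 3 + 27 * (twist p d).2 ^ 2 = d ^ 6 * (4 * p.1 ^ 3 + 27 * p.2 ^ 2) := by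
      unfold twist
      ring
    rw [e]
    exact mul_ne_zero (pow_ne_zero _ hd) hdis
  exact ⟨hT, fun hnc => parity_of h2R (hD' D hD).2 (hD' D hD).1.ne_zero hdis' M hM hT hnc⟩

end pf

/-- **The parity conjecture for a bounded twist of almost all elliptic curves over a number field.** For all but
a proportion `ε` of the curves `p` and all `d ∈ 𝒮` one of the twists of `p ^ d` by the numbers `D` in the finite set
`𝒟` has, over ALL the extensions `M / F` in the class of `p ^ d` and `R`, a trivial 2-Selmer group, no element of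
order two in the Tate-Shafarevich group, finitely many points, and satisfies the parity conjecture over `M` if
`Gal(M / F)` is not cyclic. -/
theorem result (F : Type) [Field F] [NumberField F] (W : ℕ) (hW : 0 < W) (𝒮 : Finset (𝓞 F))
    (h𝒮 : ∀ d ∈ 𝒮, d ≠ 0) (ε : ℝ) (hε : 0 < ε) :
    (∀ X : ℝ, (Curves F X).Finite) ∧
    ∃ (R : ℕ) (𝒟 : Finset ℕ), 0 < R ∧ 2 * W ∣ R ∧ 1 ∈ 𝒟 ∧
      (∀ D ∈ 𝒟, Squarefree D ∧ D ≡ 1 [MOD 8 * W] ∧ D ∣ R) ∧
      (∀ p : 𝓞 F × 𝓞 F, InClass R p F) ∧
      ∀ᶠ X : ℝ in atTop, 0 < (Curves F X).ncard ∧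
        (({p ∈ Curves F X | ¬ ∀ d ∈ 𝒮, ∃ D ∈ 𝒟, Good R (twist p d)
          (twist (twist p d) (D : 𝓞 F))}.ncard : ℝ) ≤ ε * ((Curves F X).ncard : ℝ)) := by
  have heq : ∀ X, Curves F X = {p : 𝓞 F × 𝓞 F | Pool.Agent.N783.PF.Crv X p} := by
    intro X
    ext p
    exact ⟨fun h => ⟨h.1, h.2.1, h.2.2⟩, fun h => ⟨h.disc, h.min, h.ht⟩⟩
  have hfin : ∀ X : ℝ, (Curves F X).Finite := by
    intro X
    rw [heq]
    exact Pool.Agent.N61.PF.crv_finite Pool.Agent.N490.PF.pts X
  obtain ⟨R, 𝒟, hR, hWR, h1, hD, Y₀, hY⟩ := Pool.Agent.H458.AU.final F (2 * W) (by omega) 𝒮 h𝒮 ε hε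
  have h2R : 2 ∣ R := dvd_of_mul_right_dvd hWR
  refine ⟨hfin, R, 𝒟, hR, hWR, h1, fun D hD' => ⟨(hD D hD').1, ?_, (hD D hD').2.2⟩, fun p => ?_, ?_⟩
  · have h2 : D ≡ 1 [MOD 8 * (2 * W)] := (hD D hD').2.1
    exact h2.of_dvd (Nat.mul_dvd_mul_left 8 (Nat.dvd_mul_left W 2))
  · have h2 := Pool.Agent.H458.AU.cls_self R p
    exact ⟨inferInstance, ⟨0, by rw [Module.finrank_self, pow_zero]⟩, fun v hv =>
      ⟨of_unr (h2.spl v hv).1, (h2.spl v hv).2⟩, fun v hv => of_unr (h2.unr v hv), h2.real⟩
  filter_upwards [eventually_ge_atTop Y₀] with X hX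
  obtain ⟨h2, h3, -⟩ := hY X hX
  rw [← heq] at h2 h3
  refine ⟨h2, le_trans ?_ h3⟩
  have hsub : {p ∈ Curves F X | ¬ ∀ d ∈ 𝒮, ∃ D ∈ 𝒟, Good R (twist p d)
      (twist (twist p d) (D : 𝓞 F))} ⊆
      {p : 𝓞 F × 𝓞 F | Pool.Agent.N783.PF.Crv X p ∧
        ∃ d ∈ 𝒮, ¬ Pool.Agent.H458.AU.Tw R 𝒟 (Pool.Agent.H458.AU.twp p d)} := by
    rintro p ⟨hp, h⟩
    rw [heq] at hp
    refine ⟨hp, ?_⟩
    by_contra hcon
    push Not at hcon
    exact h fun d hd => good_of h2R (fun D hD' => ⟨(hD D hD').1, (hD D hD').2.2⟩) hp.disc (h𝒮 d hd)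
      (hcon d hd)
  have := Set.ncard_le_ncard hsub ((hfin X).subset fun p hp => by
    rw [heq]
    exact hp.1)
  exact_mod_cast this

end Pool.Agent.Results.MP_02f36d_nt.AlmostAllCurves
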