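import Pool.Agent.H459.PY.Sgn

/-!
# The parity conjecture over Galois 2-extensions for a positive proportion of all curves (helper459)

Let `K / F` be a Galois extension of number fields of 2-power degree such that the decomposition groups at the
primes over `2` are cyclic and every place of `F`, finite or infinite, has at least two places of `K` above it.
For a positive proportion of ALL elliptic curves `E : y² = x³ + a x + b` over `F`, ordered by height, the parity
conjecture holds for `E` over `K`: the group `E(K)` is finite (and the 2-Selmer group of `E` over `K` is zero),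
and the global root number of `E` over `K` is `1`.

The local root numbers are signs `w v`, `v` a prime of `K`, with the following properties: `w v = 1` if `E` has
good reduction at `v`, and `w` is invariant under the Galois group of `K / F`, since `E` is defined over `F`. At
the infinite places they are `-1`. The theorem is proved for all `w` with these properties.

The positive proportion with `Sel_2 (E / K) = 0` is `Pool.Agent.H459.UT.finT` (`MP_78d38b_nt.CyclicAtTwo`), which
rests on the positive proportion theorem of the library (project PF of helper783 and others).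
-/

set_option autoImplicit false

open NumberField IsDedekindDomain MulAction
open scoped Classical Pointwise

namespace Pool.Agent.Results.MP_02f36d_nt.EveryBaseFieldTwoExtensions

open Pool.Agent.N783.PF (Crv)
open Pool.Agent.H459.UF (GoodM)
open Pool.Agent.N874.PP (sW)
open Pool.Agent.TH115.GD (Pt)

/-- The group of the points of `y² = x³ + a x + b`, `p = (a, b)`, over `K`. -/
abbrev Points (F K : Type) [Field F] [NumberField F] [Field K] [NumberField K] [Algebra F K]
    (p : 𝓞 F × 𝓞 F) : Type :=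
  Pt (sW (algebraMap F K (p.1 : F)) (algebraMap F K (p.2 : F))) K

/-- The discriminant of the equation up to the sign and a power of `2`, as an integer of `K`. -/
noncomputable def disc (F K : Type) [Field F] [NumberField F] [Field K] [NumberField K] [Algebra F K]
    (p : 𝓞 F × 𝓞 F) : 𝓞 K :=
  algebraMap (𝓞 F) (𝓞 K) (4 * p.1 ^ 3 + 27 * p.2 ^ 2)

/-- Properties of the local root numbers of `y² = x³ + a x + b` at the primes of `K`. -/
structure LocalRootNumbers (F K : Type) [Field F] [NumberField F] [Field K] [NumberField K] [Algebra F K]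
    (p : 𝓞 F × 𝓞 F) (w : HeightOneSpectrum (𝓞 K) → ℤˣ) : Prop where
  good : ∀ v : HeightOneSpectrum (𝓞 K), (2 : 𝓞 K) ∉ v.asIdeal → disc F K p ∉ v.asIdeal → w v = 1
  invariant : ∀ (σ : K ≃ₐ[F] K) (v v' : HeightOneSpectrum (𝓞 K)), v'.asIdeal = σ • v.asIdeal → w v' = w v

/-- The global root number: the product of the local ones, which are `-1` at the infinite places. -/
noncomputable def globalRootNumber (K : Type) [Field K] [NumberField K]
    (w : HeightOneSpectrum (𝓞 K) → ℤˣ) : ℤˣ :=
  (∏ _u : InfinitePlace K, (-1 : ℤˣ)) * ∏ᶠ v, w v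

/-- The parity conjecture for `y² = x³ + a x + b` over `K`, and finiteness of the product. -/
def Parity (F K : Type) [Field F] [NumberField F] [Field K] [NumberField K] [Algebra F K]
    (p : 𝓞 F × 𝓞 F) : Prop :=
  ∀ w : HeightOneSpectrum (𝓞 K) → ℤˣ, LocalRootNumbers F K p w →
    {v | w v ≠ 1}.Finite ∧ (-1) ^ Module.finrank ℤ (Points F K p) = globalRootNumber K w

theorem parity_of {F K : Type} [Field F] [NumberField F] [Field K] [NumberField K] [Algebra F K]
    [IsGalois F K] {n : ℕ} (hn : Module.finrank F K = 2 ^ n)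
    (hfin : ∀ v : HeightOneSpectrum (𝓞 K), stabilizer (K ≃ₐ[F] K) v.asIdeal ≠ ⊤)
    (hinf : ∀ u : InfinitePlace K, stabilizer (K ≃ₐ[F] K) u ≠ ⊤) {p : 𝓞 F × 𝓞 F}
    (hd : 4 * p.1 ^ 3 + 27 * p.2 ^ 2 ≠ 0) (hg : GoodM F K p) : Parity F K p := by
  intro w hw
  have hG : Nat.card (K ≃ₐ[F] K) = 2 ^ n := by rw [IsGalois.card_aut_eq_finrank, hn]
  have hd' : disc F K p ≠ 0 := by
    unfold disc
    intro h
    apply hd
    apply NumberField.RingOfIntegers.algebraMap.injective F K
    rw [h, map_zero]
  have hwf : {v | w v ≠ 1}.Finite := by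
    have h1 : {v : HeightOneSpectrum (𝓞 K) | 2 * disc F K p ∈ v.asIdeal}.Finite := by
      have h2 : Ideal.span {2 * disc F K p} ≠ ⊥ := by
        rw [Ne, Ideal.span_singleton_eq_bot]
        exact mul_ne_zero two_ne_zero hd'
      refine (Ideal.finite_factors h2).subset ?_
      intro v hv
      rw [Set.mem_setOf_eq, Ideal.dvd_span_singleton]
      exact hv
    refine h1.subset ?_
    intro v hv
    by_contra hcon
    apply hv
    have h3 : ¬ ((2 : 𝓞 K) * disc F K p ∈ v.asIdeal) := hcon
    rw [v.isPrime.mul_mem_iff_mem_or_mem, not_or] at h3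
    exact hw.good v h3.1 h3.2
  refine ⟨hwf, ?_⟩
  have h1 : ∏ᶠ v, w v = 1 := by
    refine Pool.Agent.H459.PY.prod_one hG (fun v : HeightOneSpectrum (𝓞 K) => v.asIdeal)
      (fun v v' h => HeightOneSpectrum.ext h) w hwf ?_ hfin
    intro σ v
    have hp : (σ • v.asIdeal).IsPrime := by
      have := v.isPrime
      infer_instance
    have hb : σ • v.asIdeal ≠ ⊥ := by
      intro h
      apply v.ne_bot
      have h2 : σ⁻¹ • (σ • v.asIdeal) = σ⁻¹ • (⊥ : Ideal (𝓞 K)) := by rw [h]
      rw [inv_smul_smul] at h2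
      rw [h2]
      exact Ideal.map_bot
    exact ⟨⟨σ • v.asIdeal, hp, hb⟩, rfl, hw.invariant σ v _ rfl⟩
  have h2 : Even (Fintype.card (InfinitePlace K)) := by
    have h3 := Pool.Agent.H459.PY.even_ncard hG (Set.univ : Set (InfinitePlace K)) Set.finite_univ
      (fun _ _ _ => trivial) (fun u _ => hinf u)
    rwa [Set.ncard_univ, Nat.card_eq_fintype_card] at h3
  have h3 : Module.finrank ℤ (Points F K p) = 0 := by
    have := hg.fin
    apply Module.finrank_eq_zero_of_rank_eq_zero
    rw [rank_eq_zero_iff]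
    intro x
    refine ⟨(Nat.card (Points F K p) : ℤ), ?_, ?_⟩
    · exact_mod_cast Nat.card_pos.ne'
    · rw [natCast_zsmul]
      exact card_nsmul_eq_zero'
  unfold globalRootNumber
  rw [h1, h3, pow_zero, mul_one, Finset.prod_const, Finset.card_univ, h2.neg_one_pow]

theorem result (F K : Type) [Field F] [NumberField F] [Field K] [NumberField K] [Algebra F K]
    [IsGalois F K] (n : ℕ) (hn : Module.finrank F K = 2 ^ n)
    (hcyc : ∀ v : HeightOneSpectrum (𝓞 K), (2 : 𝓞 K) ∈ v.asIdeal →
      IsCyclic (stabilizer (K ≃ₐ[F] K) v.asIdeal))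
    (hfin : ∀ v : HeightOneSpectrum (𝓞 K), stabilizer (K ≃ₐ[F] K) v.asIdeal ≠ ⊤)
    (hinf : ∀ u : InfinitePlace K, stabilizer (K ≃ₐ[F] K) u ≠ ⊤) :
    ∃ c : ℝ, 0 < c ∧ ∃ Y₀ : ℝ, ∀ Y : ℝ, {p : 𝓞 F × 𝓞 F | Crv Y p}.Finite ∧
      (Y₀ ≤ Y → 0 < {p : 𝓞 F × 𝓞 F | Crv Y p}.ncard ∧
        c * ({p : 𝓞 F × 𝓞 F | Crv Y p}.ncard : ℝ) ≤
          ({p : 𝓞 F × 𝓞 F | Crv Y p ∧ GoodM F K p ∧ Parity F K p}.ncard : ℝ)) := by
  obtain ⟨c, hc, Y₀, h⟩ := Pool.Agent.H459.UT.finT F K n hn hcyc
  refine ⟨c, hc, Y₀, fun Y => ⟨(h Y).1, fun hY => ⟨((h Y).2 hY).1, ((h Y).2 hY).2.trans ?_⟩⟩⟩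
  have h1 : {p : 𝓞 F × 𝓞 F | Crv Y p ∧ GoodM F K p}.ncard ≤
      {p : 𝓞 F × 𝓞 F | Crv Y p ∧ GoodM F K p ∧ Parity F K p}.ncard := by
    refine Set.ncard_le_ncard ?_ ((h Y).1.subset fun p hp => hp.1)
    rintro p ⟨hp, hg⟩
    exact ⟨hp, hg, parity_of hn hfin hinf hp.disc hg⟩
  exact_mod_cast h1

end Pool.Agent.Results.MP_02f36d_nt.EveryBaseFieldTwoExtensions
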