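import Pool.Agent.H329.LC.Lists

/-!
# The parity conjecture for semistable elliptic curves: equivalence with the case of curves that look CM

`K` is a number field, `E` a semistable elliptic curve over `K`, `L` a finite Galois extension of `K`, `S` a
finite set of primes of `K` and `R`, `N` natural numbers.  `E` looks CM modulo `m`
if there is an endomorphism `φ` of the group `E[m]` which does not act as an integer on `E[ℓ]` for any
prime `ℓ ∣ m`, such that for every `σ` in the absolute Galois group there are integers `a` and `b` with
`σ φ σ⁻¹ = a + b φ` on `E[m]`; modulo a prime `ℓ` it means that the image of the Galois group in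
`Aut(E[ℓ])` is contained in a Borel subgroup or in the normaliser of a Cartan subgroup.  A semistable curve
with `j(E) ∉ 𝓞 K` has no complex multiplication, and then it looks CM only modulo finitely many primes and
only modulo finitely many powers of a given prime (Serre).

The proof.  By Brauer induction with denominators prime to `2` a relation `∑ e_j [F_j] = m [K]` with an
odd integer `m` holds between permutation characters, where the Galois groups of `L' F_j / F_j` are
`2`-hyperelementary for a given finite Galois extension `L'` of `K`, the local degrees at `S` are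
divisible by `n` and the ranks of the groups `E(F_j)` are at least `R` if `j(E) ≠ 0, 1728`
(`Pool.Agent.N683.H2`).  With
`L' ⊇ K(E[N²])` the curve `E` looks CM over `F_j` modulo the divisors of `N` that are not divisible by `4`
(`Pool.Agent.H453.CM`): let `c` be a generator of the cyclic normal subgroup `C` of odd order and 2-power
index of the Galois group and `ℓ ^ k` a prime power dividing `N`; then `c = s + ℓ ^ a x` on `E[ℓ ^ (2k)]`
with an integer `s` and an `x` that is not scalar modulo `ℓ`, and `φ = x` is the endomorphism if `a < k`; if
`a ≥ k` the image of the Galois group modulo the scalars is a `2`-group, and `φ` is a preimage of a central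
element.  The relation is combined with the relations for the ranks, the numbers of archimedean places
and of split multiplicative primes of `Pool.Agent.N19.BR`.

The definitions are in `Pool.Agent.H329.LC.Defs`, `Lists` and `Pool.Agent.N19.BR.PDefs`, `FDefs` and `Defs`; a
`Pool.Agent.R433.MD.Ext K` is a number field with the structure of a `K`-algebra.
-/

set_option autoImplicit false

namespace Pool.Agent.Results.MP_02f36d_nt.LooksCMParity

open NumberField IsDedekindDomain
open Pool.Agent.R433.MD (Ext)
open Pool.Agent.N19.BR.FDef
open Pool.Agent.H329.LC
open scoped Classical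

/-- **Parity and elliptic curves that look CM.**

(1) Let `E` be a semistable elliptic curve over a number field `K`, `L/K` a finite Galois extension, `S` a
finite set of primes of `K`, `n` an odd positive integer, `N` a positive integer and `R` a natural number.
There is a finite list of number fields `F_j ⊇ K` such that
* `E(F_j)` has rank at least `R`, if `j(E) ≠ 0, 1728`;
* `E` looks CM over `F_j` modulo every divisor `m` of `N` with `4 ∤ m`;
* the Galois groups of `L F_j / F_j` are `2`-hyperelementary, and `n` divides the local degrees of all
  `F_j / K` at the primes above `S`;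
* for a set `J` of indices `(-1)^{rk E(K)} w(E / K) = ∏_{j ∈ J} (-1)^{rk E(F_j)} w(E / F_j)`; in
  particular, if the parity conjecture holds for `E` over all `F_j`, then it holds for `E` over `K`.

(2) For every natural number `R` and every `N ≥ 1` that is not divisible by `4`: the parity conjecture
holds for all semistable elliptic curves over all number fields if and only if it holds for those which
look CM modulo `N` and have rank at least `R` or `j = 0` or `j = 1728`. -/
theorem result :
    (∀ (K : Type) [Field K] [NumberField K] (E : WeierstrassCurve K) [E.IsElliptic],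
      Semistable E → ∀ (L : Type) [Field L] [NumberField L] [Algebra K L] [IsGalois K L]
      (S : Set (HeightOneSpectrum (𝓞 K))), S.Finite → ∀ n : ℕ, Odd n →
      ∀ N : ℕ, N ≠ 0 → ∀ R : ℕ, ∃ (k : ℕ) (Z : Fin k → Ext K) (J : Finset (Fin k)),
        (∀ j, RankIfGeneral R E (Z j) ∧ LooksCMTwo (E.map (algebraMap K (Z j).F)) N ∧
          TwoClass L S n (Z j)) ∧ ParityFormula E Z J ∧
          ((∀ j, Parity (E.map (algebraMap K (Z j).F))) → Parity E)) ∧
    ∀ N : ℕ, ¬ 4 ∣ N → ∀ R : ℕ,
      ((∀ (K : Type) [Field K] [NumberField K] (E : WeierstrassCurve K) [E.IsElliptic],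
        Semistable E → Parity E) ↔
      ∀ (K : Type) [Field K] [NumberField K] (E : WeierstrassCurve K) [E.IsElliptic],
        Semistable E → LooksCM E N →
        ((R : Cardinal) ≤ Module.rank ℤ E.toAffine.Point ∨ E.j = 0 ∨ E.j = 1728) →
        Parity E) := by
  have main : ∀ (K : Type) [Field K] [NumberField K] (E : WeierstrassCurve K) [E.IsElliptic],
      Semistable E → ∀ (L : Type) [Field L] [NumberField L] [Algebra K L] [IsGalois K L]
      (S : Set (HeightOneSpectrum (𝓞 K))), S.Finite → ∀ n : ℕ, Odd n →
      ∀ N : ℕ, N ≠ 0 → ∀ R : ℕ, ∃ (k : ℕ) (Z : Fin k → Ext K) (J : Finset (Fin k)),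
        (∀ j, RankIfGeneral R E (Z j) ∧ LooksCMTwo (E.map (algebraMap K (Z j).F)) N ∧
          TwoClass L S n (Z j)) ∧ ParityFormula E Z J ∧
          ((∀ j, Parity (E.map (algebraMap K (Z j).F))) → Parity E) := by
    intro K _ _ E hE hs L _ _ _ _ S hS n hn N hN R
    obtain ⟨k, Z, e, m, hm, hrel, hZ⟩ := looks_two E L hS hn hN R
    have h : ParityFormula E Z (Finset.univ.filter fun i => Odd (e i)) :=
      Pool.Agent.N19.BR.parity_ranks hm hrel hE hs
    exact ⟨k, Z, Finset.univ.filter fun i => Odd (e i), hZ, h,
      Pool.Agent.N19.BR.parity_of_formula h hE⟩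
  refine ⟨main, fun N h4 R => ⟨fun h K _ _ E _ hs _ _ => h K E hs, fun h K _ _ E _ hs => ?_⟩⟩
  have hN : N ≠ 0 := fun h => h4 (h ▸ dvd_zero 4)
  obtain ⟨k, Z, J, hZ, -, h2⟩ := main K E hs K ∅ Set.finite_empty 1 odd_one N hN R
  exact h2 fun j => h (Z j).F _ (Pool.Agent.N683.H2.semistable_map hs (Z j).F)
    ((hZ j).2.1.self h4) (general_iff (hZ j).1)

end Pool.Agent.Results.MP_02f36d_nt.LooksCMParity
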